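import Mathlib.GroupTheory.SpecificGroups.ZGroup
import Mathlib.GroupTheory.FixedPointFree
import Mathlib.GroupTheory.Solvable
import Mathlib.GroupTheory.Index
import Mathlib.GroupTheory.Perm.Cycle.Type
import Mathlib.Tactic

/-! Tools for the finite end of the V-theorem (MP_fb3619_al, finding 4566 (b)-(f), row FIN):
fixed points of maps of prime order, minimal normal invariant subgroups, the configuration `Cf`
and its quotients. -/

namespace Pool.Agent.Lib.MP_fb3619_al.H93

open scoped commutatorElement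

section Counting

theorem iter_card {α : Type*} [Finite α] (φ : α → α) (p : ℕ) [Fact p.Prime]
    (h : ∀ x, φ^[p] x = x) : Nat.card α ≡ Nat.card (Function.fixedPoints φ) [MOD p] := by
  classical
  have := Fintype.ofFinite α
  let f : Function.End α := φ
  have h1 : f ^ p ^ 1 = 1 := by
    rw [pow_one]
    funext x
    exact h x
  have h2 := Equiv.Perm.card_fixedPoints_modEq (p := p) (n := 1) h1
  rw [Nat.card_eq_fintype_card, Nat.card_eq_fintype_card]
  convert h2 using 2

theorem exists_fix {α : Type*} [Finite α] (φ : α → α) (p : ℕ) [Fact p.Prime]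
    (h : ∀ x, φ^[p] x = x) (hp : ¬ p ∣ Nat.card α) : ∃ x, φ x = x := by
  by_contra hc
  push Not at hc
  have h0 : IsEmpty (Function.fixedPoints φ) := ⟨fun x => hc x.1 x.2⟩
  have h1 := iter_card φ p h
  rw [Nat.card_of_isEmpty (α := Function.fixedPoints φ)] at h1
  exact hp (Nat.modEq_zero_iff_dvd.mp h1)

theorem card_one {α : Type*} [Finite α] (φ : α → α) (p : ℕ) [Fact p.Prime]
    (h : ∀ x, φ^[p] x = x) (a : α) (ha : φ a = a) (hu : ∀ x, φ x = x → x = a) :
    Nat.card α ≡ 1 [MOD p] := by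
  have h1 := iter_card φ p h
  have : Nat.card (Function.fixedPoints φ) = 1 := by
    rw [Nat.card_eq_one_iff_unique]
    exact ⟨⟨fun x y => Subtype.ext ((hu _ x.2).trans (hu _ y.2).symm)⟩, ⟨⟨a, ha⟩⟩⟩
  rwa [this] at h1

end Counting

variable {G : Type*} [Group G]

/-- The fixed points of an endomorphism. -/
def Fx (s : G →* G) : Subgroup G where
  carrier := {x | s x = x}
  mul_mem' := by
    intro a b ha hb
    have ha' : s a = a := ha
    have hb' : s b = b := hb
    change s (a * b) = a * b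
    rw [map_mul, ha', hb']
  one_mem' := map_one s
  inv_mem' := by
    intro a ha
    have ha' : s a = a := ha
    change s a⁻¹ = a⁻¹
    rw [map_inv, ha']

theorem mem_Fx {s : G →* G} {x : G} : x ∈ Fx s ↔ s x = x := Iff.rfl

theorem odd_root (h : Odd (Nat.card G)) (x : G) : ∃ k : ℕ, (x ^ 2) ^ k = x := by
  obtain ⟨m, hm⟩ := h
  refine ⟨m + 1, ?_⟩
  rw [← pow_mul]
  have : 2 * (m + 1) = Nat.card G + 1 := by omega
  rw [this, pow_succ, pow_card_eq_one', one_mul]

theorem odd_mem (h : Odd (Nat.card G)) {H : Subgroup G} {x : G} (hx : x ^ 2 ∈ H) : x ∈ H := by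
  obtain ⟨k, hk⟩ := odd_root h x
  rw [← hk]
  exact H.pow_mem hx k

theorem odd_one (h : Odd (Nat.card G)) {x : G} (hx : x * x = 1) : x = 1 := by
  obtain ⟨k, hk⟩ := odd_root h x
  rw [← hk, pow_two, hx, one_pow]

theorem odd_comm (h : Odd (Nat.card G)) {x w : G} (hx : x ^ 2 * w = w * x ^ 2) :
    x * w = w * x := by
  obtain ⟨k, hk⟩ := odd_root h x
  have h1 : Commute ((x ^ 2) ^ k) w := (show Commute (x ^ 2) w from hx).pow_left k
  rw [hk] at h1
  exact h1

theorem odd_inv {s : G →* G} (h : Odd (Nat.card G)) {x : G} (h1 : s x = x) (h2 : s x = x⁻¹) :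
    x = 1 := by
  apply odd_one h
  have : x = x⁻¹ := h1.symm.trans h2
  nth_rewrite 1 [this]
  exact inv_mul_cancel x

/-- An inverted `x` commutes with every inverted `w` whose conjugate is inverted. -/
theorem key_inv {s : G →* G} (h : Odd (Nat.card G)) {x w : G} (hx : s x = x⁻¹)
    (hw : s w = w⁻¹) (hxw : s (x⁻¹ * w * x) = (x⁻¹ * w * x)⁻¹) : x * w = w * x := by
  apply odd_comm h
  rw [map_mul, map_mul, map_inv, hx, hw, inv_inv] at hxw
  have h1 : x * w * x⁻¹ = x⁻¹ * w * x := by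
    have := congrArg (fun z => z⁻¹) hxw
    simp only [mul_inv_rev, inv_inv] at this
    simpa [mul_assoc] using this
  calc x ^ 2 * w = x * (x * w * x⁻¹) * x := by simp [pow_two, mul_assoc]
    _ = x * (x⁻¹ * w * x) * x := by rw [h1]
    _ = w * x ^ 2 := by simp [pow_two, mul_assoc]

/-- An inverted `x` commutes with every fixed `w` whose conjugate is fixed. -/
theorem key_fix {s : G →* G} (h : Odd (Nat.card G)) {x w : G} (hx : s x = x⁻¹)
    (hw : s w = w) (hxw : s (x⁻¹ * w * x) = x⁻¹ * w * x) : x * w = w * x := by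
  apply odd_comm h
  rw [map_mul, map_mul, map_inv, hx, hw, inv_inv] at hxw
  calc x ^ 2 * w = x * (x * w * x⁻¹) * x := by simp [pow_two, mul_assoc]
    _ = x * (x⁻¹ * w * x) * x := by rw [hxw]
    _ = w * x ^ 2 := by simp [pow_two, mul_assoc]

/-- Fixed points in cosets. -/
theorem fix_coset [Finite G] (W : Subgroup G) (f : G →* G) (p : ℕ) [Fact p.Prime]
    (hf : ∀ x, f^[p] x = x) (hp : ¬ p ∣ Nat.card G) (hW : ∀ w ∈ W, f w ∈ W) (x : G)
    (hx : x⁻¹ * f x ∈ W) : ∃ w ∈ W, f (x * w) = x * w := by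
  let φ : W → W := fun w => ⟨x⁻¹ * f (x * w.1), by
    rw [map_mul, ← mul_assoc]
    exact W.mul_mem hx (hW _ w.2)⟩
  have hφ : ∀ (k : ℕ) (w : W), ((φ^[k] w : W) : G) = x⁻¹ * f^[k] (x * w.1) := by
    intro k
    induction k with
    | zero => intro w; simp
    | succ k ih =>
      intro w
      rw [Function.iterate_succ', Function.iterate_succ', Function.comp_apply,
        Function.comp_apply]
      show x⁻¹ * f (x * ((φ^[k] w : W) : G)) = _
      rw [ih w]
      congr 2
      group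
  have h1 : ∀ w : W, φ^[p] w = w := by
    intro w
    apply Subtype.ext
    rw [hφ p w, hf]
    group
  have h2 : ¬ p ∣ Nat.card W := fun h => hp (h.trans (Subgroup.card_subgroup_dvd_card W))
  obtain ⟨w, hw⟩ := exists_fix φ p h1 h2
  refine ⟨w.1, w.2, ?_⟩
  have h3 : x⁻¹ * f (x * w.1) = w.1 := congrArg Subtype.val hw
  calc f (x * w.1) = x * (x⁻¹ * f (x * w.1)) := by group
    _ = x * w.1 := by rw [h3]

theorem sub_card_one [Finite G] (H : Subgroup G) (f : G →* G) (p : ℕ) [Fact p.Prime]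
    (hf : ∀ x, f^[p] x = x) (hH : ∀ x ∈ H, f x ∈ H) (h1 : ∀ x ∈ H, f x = x → x = 1) :
    Nat.card H ≡ 1 [MOD p] := by
  let φ : H → H := fun w => ⟨f w.1, hH _ w.2⟩
  have hφ : ∀ (k : ℕ) (w : H), ((φ^[k] w : H) : G) = f^[k] w.1 := by
    intro k
    induction k with
    | zero => intro w; simp
    | succ k ih =>
      intro w
      rw [Function.iterate_succ', Function.iterate_succ', Function.comp_apply,
        Function.comp_apply]
      show f ((φ^[k] w : H) : G) = _
      rw [ih w]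
  refine card_one φ p (fun w => Subtype.ext ?_) 1 (Subtype.ext ?_) ?_
  · rw [hφ p w, hf]
  · show f 1 = 1
    exact map_one f
  · intro x hx
    exact Subtype.ext (h1 x.1 x.2 (congrArg Subtype.val hx))

/-- A minimal invariant normal subgroup below a given one. -/
theorem exists_minimal_inv [Finite G] (s g : G →* G) (A : Subgroup G) (hA : A ≠ ⊥)
    (hn : A.Normal) (hs : ∀ w ∈ A, s w ∈ A) (hg : ∀ w ∈ A, g w ∈ A) :
    ∃ W : Subgroup G, W ≤ A ∧ W ≠ ⊥ ∧ W.Normal ∧ (∀ w ∈ W, s w ∈ W) ∧ (∀ w ∈ W, g w ∈ W) ∧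
      ∀ V : Subgroup G, V.Normal → (∀ v ∈ V, s v ∈ V) → (∀ v ∈ V, g v ∈ V) → V ≤ W →
        V = ⊥ ∨ V = W := by
  classical
  let S : Set (Subgroup G) := {W | W ≤ A ∧ W ≠ ⊥ ∧ W.Normal ∧ (∀ w ∈ W, s w ∈ W) ∧
    (∀ w ∈ W, g w ∈ W)}
  obtain ⟨W, hW, hmin⟩ := (wellFounded_lt (α := Subgroup G)).has_min S
    ⟨A, le_refl A, hA, hn, hs, hg⟩
  refine ⟨W, hW.1, hW.2.1, hW.2.2.1, hW.2.2.2.1, hW.2.2.2.2, ?_⟩
  intro V hVn hVs hVg hVW
  by_contra hc
  push Not at hc
  exact hmin V ⟨hVW.trans hW.1, hc.1, hVn, hVs, hVg⟩ (lt_of_le_of_ne hVW hc.2)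

/-- The elements of exponent `r` of a commutative subgroup. -/
def expSub (A : Subgroup G) (hA : ∀ v ∈ A, ∀ w ∈ A, v * w = w * v) (r : ℕ) : Subgroup G where
  carrier := {a | a ∈ A ∧ a ^ r = 1}
  mul_mem' := by
    intro a b ha hb
    refine ⟨A.mul_mem ha.1 hb.1, ?_⟩
    have : Commute a b := hA a ha.1 b hb.1
    rw [this.mul_pow, ha.2, hb.2, mul_one]
  one_mem' := ⟨A.one_mem, one_pow r⟩
  inv_mem' := by
    intro a ha
    exact ⟨A.inv_mem ha.1, by rw [inv_pow, ha.2, inv_one]⟩

theorem exists_W [Finite G] [Group.IsSolvable G] [Nontrivial G] (s g : G →* G) :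
    ∃ (r : ℕ) (W : Subgroup G), r.Prime ∧ W ≠ ⊥ ∧ W.Normal ∧ (∀ w ∈ W, s w ∈ W) ∧
      (∀ w ∈ W, g w ∈ W) ∧ (∀ w ∈ W, w ^ r = 1) ∧ (∀ v ∈ W, ∀ w ∈ W, v * w = w * v) ∧
      ∀ V : Subgroup G, V.Normal → (∀ v ∈ V, s v ∈ V) → (∀ v ∈ V, g v ∈ V) → V ≤ W →
        V = ⊥ ∨ V = W := by
  classical
  have hex : ∃ n, derivedSeries G n = ⊥ := Group.IsSolvable.solvable
  have hk0 : Nat.find hex ≠ 0 := by
    intro h0
    have h1 := Nat.find_spec hex
    rw [h0, derivedSeries_zero] at h1
    exact top_ne_bot h1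
  obtain ⟨k, hk⟩ := Nat.exists_eq_succ_of_ne_zero hk0
  have hbot := Nat.find_spec hex
  rw [hk] at hbot
  have hA : derivedSeries G k ≠ ⊥ := Nat.find_min hex (by omega)
  have hcomm : ∀ v ∈ derivedSeries G k, ∀ w ∈ derivedSeries G k, v * w = w * v := by
    intro v hv w hw
    have h1 : ⁅v, w⁆ ∈ (⊥ : Subgroup G) := by
      rw [← hbot]
      exact Subgroup.commutator_mem_commutator hv hw
    rw [Subgroup.mem_bot] at h1
    exact commutatorElement_eq_one_iff_mul_comm.mp h1
  have hinv : ∀ (f : G →* G), ∀ w ∈ derivedSeries G k, f w ∈ derivedSeries G k := fun f w hw =>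
    map_derivedSeries_le_derivedSeries f k (Subgroup.mem_map_of_mem f hw)
  have hcard : Nat.card (derivedSeries G k) ≠ 1 := fun h1 =>
    hA (Subgroup.card_eq_one.mp h1)
  obtain ⟨r, hr, hrd⟩ := Nat.exists_prime_and_dvd hcard
  have := Fact.mk hr
  obtain ⟨a, ha⟩ := exists_prime_orderOf_dvd_card' r hrd
  have hE : expSub (derivedSeries G k) hcomm r ≠ ⊥ := by
    intro h0
    have h1 : (a : G) ∈ expSub (derivedSeries G k) hcomm r := by
      refine ⟨a.2, ?_⟩
      have : a ^ r = 1 := by rw [← ha]; exact pow_orderOf_eq_one a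
      exact congrArg Subtype.val this
    rw [h0, Subgroup.mem_bot] at h1
    have h2 : a = 1 := Subtype.ext h1
    rw [h2, orderOf_one] at ha
    exact hr.one_lt.ne ha
  have hEi : ∀ (f : G →* G), ∀ w ∈ expSub (derivedSeries G k) hcomm r,
      f w ∈ expSub (derivedSeries G k) hcomm r := fun f w hw =>
    ⟨hinv f w hw.1, by rw [← map_pow, hw.2, map_one]⟩
  have hEn : (expSub (derivedSeries G k) hcomm r).Normal := by
    constructor
    intro n hn x
    have := hEi (MulAut.conj x).toMonoidHom n hn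
    simpa using this
  obtain ⟨W, hWA, h1, h2, h3, h4, h5⟩ := exists_minimal_inv s g _ hE hEn (hEi s) (hEi g)
  exact ⟨r, W, hr, h1, h2, h3, h4, fun w hw => (hWA hw).2,
    fun v hv w hw => hcomm v (hWA hv).1 w (hWA hw).1, h5⟩

/-- The configuration: `s` an involution, `g` of order `q`, commuting, with the same fixed points,
`G` generated by the elements inverted by `s`. -/
structure Cf (s g : G →* G) (q : ℕ) : Prop where
  odd : Odd (Nat.card G)
  inv : ∀ x, s (s x) = x
  comm : ∀ x, s (g x) = g (s x)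
  ord : ∀ x, g^[q] x = x
  qG : ¬ q ∣ Nat.card G
  fix : ∀ x, s x = x ↔ g x = x
  gen : Subgroup.closure {x : G | s x = x⁻¹} = ⊤
  zg : IsZGroup (Fx s)
  pr : ∀ r : ℕ, r.Prime → r ∣ Nat.card (Fx s) → r < q

omit [Group G] in
theorem two_prime_not (h : Odd (Nat.card G)) : ¬ 2 ∣ Nat.card G := by
  rcases h with ⟨m, hm⟩
  omega

theorem Cf.lift [Finite G] {s g : G →* G} {q : ℕ} (h : Cf s g q) (W : Subgroup G) [W.Normal]
    (hs : ∀ w ∈ W, s w ∈ W) (x : G) (hx : x⁻¹ * s x ∈ W) :
    ∃ n ∈ Fx s, x⁻¹ * n ∈ W := by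
  have := Fact.mk Nat.prime_two
  obtain ⟨w, hw, h1⟩ := fix_coset W s 2 (fun x => h.inv x) (two_prime_not h.odd) hs x hx
  exact ⟨x * w, h1, by simpa using hw⟩

theorem Cf.lift' [Finite G] {s g : G →* G} {q : ℕ} [Fact q.Prime] (h : Cf s g q)
    (W : Subgroup G) [W.Normal] (hg : ∀ w ∈ W, g w ∈ W) (x : G) (hx : x⁻¹ * g x ∈ W) :
    ∃ n ∈ Fx s, x⁻¹ * n ∈ W := by
  obtain ⟨w, hw, h1⟩ := fix_coset W g q h.ord h.qG hg x hx
  exact ⟨x * w, (h.fix _).mpr h1, by simpa using hw⟩

theorem quot_iter (W : Subgroup G) [W.Normal] (g : G →* G) (hg : W ≤ W.comap g) (k : ℕ) (x : G) :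
    (QuotientGroup.map W W g hg)^[k] (x : G ⧸ W) = ((g^[k] x : G) : G ⧸ W) := by
  induction k generalizing x with
  | zero => rfl
  | succ k ih =>
    rw [Function.iterate_succ, Function.iterate_succ, Function.comp_apply, Function.comp_apply,
      QuotientGroup.map_mk, ih]

theorem Cf.quot [Finite G] {s g : G →* G} {q : ℕ} [Fact q.Prime] (h : Cf s g q)
    (W : Subgroup G) [W.Normal] (hs : W ≤ W.comap s) (hg : W ≤ W.comap g) :
    Cf (QuotientGroup.map W W s hs) (QuotientGroup.map W W g hg) q := by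
  have hl : ∀ x : G, QuotientGroup.map W W s hs (x : G ⧸ W) = (x : G ⧸ W) →
      ∃ n ∈ Fx s, (x : G ⧸ W) = (n : G ⧸ W) := by
    intro x hx
    rw [QuotientGroup.map_mk] at hx
    have h1 : x⁻¹ * s x ∈ W := QuotientGroup.eq.mp hx.symm
    obtain ⟨n, hn, h2⟩ := h.lift W hs x h1
    exact ⟨n, hn, QuotientGroup.eq.mpr h2⟩
  have hl' : ∀ x : G, QuotientGroup.map W W g hg (x : G ⧸ W) = (x : G ⧸ W) →
      ∃ n ∈ Fx s, (x : G ⧸ W) = (n : G ⧸ W) := by
    intro x hx
    rw [QuotientGroup.map_mk] at hx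
    have h1 : x⁻¹ * g x ∈ W := QuotientGroup.eq.mp hx.symm
    obtain ⟨n, hn, h2⟩ := h.lift' W hg x h1
    exact ⟨n, hn, QuotientGroup.eq.mpr h2⟩
  let ψ : Fx s →* Fx (QuotientGroup.map W W s hs) :=
    { toFun := fun n => ⟨((n : G) : G ⧸ W), by
        show QuotientGroup.map W W s hs ((n : G) : G ⧸ W) = ((n : G) : G ⧸ W)
        rw [QuotientGroup.map_mk, show s (n : G) = n from n.2]⟩
      map_one' := rfl
      map_mul' := fun a b => rfl }
  have hψ : Function.Surjective ψ := by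
    rintro ⟨y, hy⟩
    induction y using QuotientGroup.induction_on with
    | H x =>
      obtain ⟨n, hn, h1⟩ := hl x hy
      exact ⟨⟨n, hn⟩, Subtype.ext h1.symm⟩
  refine ⟨?_, ?_, ?_, ?_, ?_, ?_, ?_, ?_, ?_⟩
  · exact Odd.of_dvd_nat h.odd (Subgroup.card_quotient_dvd_card W)
  · intro y
    induction y using QuotientGroup.induction_on with
    | H x => rw [QuotientGroup.map_mk, QuotientGroup.map_mk, h.inv]
  · intro y
    induction y using QuotientGroup.induction_on with
    | H x =>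
      rw [QuotientGroup.map_mk, QuotientGroup.map_mk, QuotientGroup.map_mk,
        QuotientGroup.map_mk, h.comm]
  · intro y
    induction y using QuotientGroup.induction_on with
    | H x => rw [quot_iter, h.ord]
  · exact fun h1 => h.qG (h1.trans (Subgroup.card_quotient_dvd_card W))
  · intro y
    induction y using QuotientGroup.induction_on with
    | H x =>
      constructor
      · intro hx
        obtain ⟨n, hn, h1⟩ := hl x hx
        rw [h1, QuotientGroup.map_mk, (h.fix n).mp hn]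
      · intro hx
        obtain ⟨n, hn, h1⟩ := hl' x hx
        rw [h1, QuotientGroup.map_mk, show s n = n from hn]
  · rw [eq_top_iff]
    intro y _
    induction y using QuotientGroup.induction_on with
    | H x =>
      have hx : x ∈ Subgroup.closure {x : G | s x = x⁻¹} := by
        rw [h.gen]
        exact Subgroup.mem_top x
      have h1 : (QuotientGroup.mk' W x) ∈
          (Subgroup.closure {x : G | s x = x⁻¹}).map (QuotientGroup.mk' W) :=
        Subgroup.mem_map_of_mem _ hx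
      rw [MonoidHom.map_closure] at h1
      refine Subgroup.closure_mono ?_ h1
      rintro _ ⟨z, hz, rfl⟩
      show QuotientGroup.map W W s hs (z : G ⧸ W) = (z : G ⧸ W)⁻¹
      rw [QuotientGroup.map_mk, show s z = z⁻¹ from hz]
      rfl
  · have := h.zg
    exact IsZGroup.of_surjective hψ
  · intro r hr hrd
    exact h.pr r hr (hrd.trans (Subgroup.card_dvd_of_surjective ψ hψ))

end Pool.Agent.Lib.MP_fb3619_al.H93
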